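import Pool.Agent.N862.MC.Fal

/-!
A measurable set on a circle invariant under a dense set of rotations is null or co-null; and a
point where a planar set and its complement both have positive upper density with generic circles.
(helper862)
-/

set_option autoImplicit false

open MeasureTheory Set Filter

namespace Pool.Agent.N862.MC

theorem dense_const {D : Set ℂ} (hD : MeasurableSet D) (x₀ : ℂ) (b : ℝ) {G : Set ℝ} (hG : Dense G)
    (hinv : ∀ g ∈ G, ∀ᵐ θ : ℝ, (x₀ + b * ex (θ + g) ∈ D ↔ x₀ + b * ex θ ∈ D)) :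
    (∀ᵐ θ : ℝ, x₀ + b * ex θ ∈ D) ∨ (∀ᵐ θ : ℝ, x₀ + b * ex θ ∉ D) := by
  haveI : Fact (0 < 2 * Real.pi) := ⟨Real.two_pi_pos⟩
  obtain ⟨s, hs⟩ : ∃ s : Set (AddCircle (2 * Real.pi)),
      s = {q | x₀ + b * ((AddCircle.toCircle q : Circle) : ℂ) ∈ D} := ⟨_, rfl⟩
  have hcoe : ∀ θ : ℝ, ((AddCircle.toCircle (θ : AddCircle (2 * Real.pi)) : Circle) : ℂ) = ex θ := by
    intro θ
    rw [AddCircle.toCircle_apply_mk, Circle.coe_exp, div_self (by positivity), one_mul]
    rfl
  have hmem : ∀ θ : ℝ, (θ : AddCircle (2 * Real.pi)) ∈ s ↔ x₀ + b * ex θ ∈ D := by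
    intro θ
    rw [hs, mem_ofPred, hcoe]
  have hsm : MeasurableSet s := by
    rw [hs]
    have hc : Continuous fun q : AddCircle (2 * Real.pi) =>
        x₀ + b * ((AddCircle.toCircle q : Circle) : ℂ) := by
      have := AddCircle.continuous_toCircle (T := 2 * Real.pi)
      fun_prop
    exact hD.preimage hc.measurable
  have hmp := AddCircle.measurePreserving_mk (2 * Real.pi) (-Real.pi)
  have hd : Dense {g : AddCircle (2 * Real.pi) | (g +ᵥ ·) ⁻¹' s =ᵐ[volume] s} := by
    have h1 : Dense ((fun θ : ℝ => (θ : AddCircle (2 * Real.pi))) '' G) := by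
      apply DenseRange.dense_image _ (AddCircle.continuous_mk' _) hG
      exact (QuotientAddGroup.mk_surjective).denseRange
    refine h1.mono ?_
    rintro _ ⟨g, hg, rfl⟩
    rw [mem_ofPred]
    rw [← hmp.map_eq, Filter.eventuallyEq_set, ae_map_iff hmp.measurable.aemeasurable]
    · apply ae_restrict_of_ae
      filter_upwards [hinv g hg] with θ hθ
      simp only [mem_preimage, vadd_eq_add]
      rw [hmem, ← hθ, ← hmem, add_comm θ g]
      rfl
    · have h2 : MeasurableSet ((fun q : AddCircle (2 * Real.pi) =>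
          (g : AddCircle (2 * Real.pi)) +ᵥ q) ⁻¹' s) := by
        apply hsm.preimage
        exact measurable_const_vadd _
      have h3 : {x : AddCircle (2 * Real.pi) | x ∈ (fun q : AddCircle (2 * Real.pi) =>
          (g : AddCircle (2 * Real.pi)) +ᵥ q) ⁻¹' s ↔ x ∈ s} =
          (((fun q : AddCircle (2 * Real.pi) =>
          (g : AddCircle (2 * Real.pi)) +ᵥ q) ⁻¹' s) ∩ s) ∪ (((fun q : AddCircle (2 * Real.pi) =>
          (g : AddCircle (2 * Real.pi)) +ᵥ q) ⁻¹' s)ᶜ ∩ sᶜ) := by
        ext x
        simp only [mem_ofPred, mem_union, mem_inter_iff, mem_compl_iff]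
        tauto
      rw [h3]
      exact (h2.inter hsm).union (h2.compl.inter hsm.compl)
  have hc := aeconst_of_dense_setOfPred_preimage_vadd_ae hsm.nullMeasurableSet hd
  rw [eventuallyConst_set] at hc
  rcases hc with h | h
  · left
    have h1 := hmp.quasiMeasurePreserving.ae h
    rw [ae_restrict_iff' measurableSet_Ioc] at h1
    apply ae_of_period
    · intro θ k hk
      rwa [ex_periodic_int] at hk
    · filter_upwards [h1] with θ hθ hm
      rw [← hmem]
      exact hθ ⟨hm.1, by linarith [hm.2]⟩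
  · right
    have h1 := hmp.quasiMeasurePreserving.ae h
    rw [ae_restrict_iff' measurableSet_Ioc] at h1
    apply ae_of_period
    · intro θ k hk
      rwa [ex_periodic_int] at hk
    · filter_upwards [h1] with θ hθ hm
      rw [← hmem]
      exact hθ ⟨hm.1, by linarith [hm.2]⟩

end Pool.Agent.N862.MC
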