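import Mathlib

/-!
Points where a planar set and its complement both have positive upper density. (helper862)
-/

set_option autoImplicit false

open MeasureTheory Set Filter Metric Topology

namespace Pool.Agent.N862.MC

/-- the radius `2^{-n}` -/
noncomputable def rd (n : ℕ) : ℝ := (1 / 2) ^ n

theorem rd_pos (n : ℕ) : 0 < rd n := by unfold rd; positivity

theorem rd_succ (n : ℕ) : rd (n + 1) = rd n / 2 := by unfold rd; rw [pow_succ]; ring

theorem tendsto_rd : Tendsto rd atTop (𝓝 0) :=
  tendsto_pow_atTop_nhds_zero_of_lt_one (by norm_num) (by norm_num)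

/-- the area of a disc of radius `2^{-n}` -/
noncomputable def ar (n : ℕ) : ℝ := volume.real (closedBall (0 : ℂ) (rd n))

theorem ar_eq (n : ℕ) : ar n = Real.pi * rd n ^ 2 := by
  unfold ar Measure.real
  rw [Complex.volume_closedBall]
  simp [ENNReal.toReal_mul, (rd_pos n).le, mul_comm]

theorem ar_pos (n : ℕ) : 0 < ar n := by
  rw [ar_eq]
  have := rd_pos n
  positivity

theorem ar_center (x : ℂ) (n : ℕ) : volume.real (closedBall x (rd n)) = ar n := by
  unfold ar Measure.real
  rw [Complex.volume_closedBall, Complex.volume_closedBall]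

/-- the relative area of `E` in a disc of radius `2^{-n}` -/
noncomputable def den (E : Set ℂ) (n : ℕ) (x : ℂ) : ℝ := volume.real (E ∩ closedBall x (rd n)) / ar n

theorem den_nonneg (E : Set ℂ) (n : ℕ) (x : ℂ) : 0 ≤ den E n x :=
  div_nonneg measureReal_nonneg (ar_pos n).le

theorem ball_ne_top (E : Set ℂ) (n : ℕ) (x : ℂ) : volume (E ∩ closedBall x (rd n)) ≠ ⊤ :=
  ((measure_mono inter_subset_right).trans_lt measure_closedBall_lt_top).ne

theorem den_add {E : Set ℂ} (hE : MeasurableSet E) (n : ℕ) (x : ℂ) :
    den E n x + den Eᶜ n x = 1 := by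
  unfold den
  rw [← add_div, div_eq_one_iff_eq (ar_pos n).ne', ← ar_center x n]
  have h := measureReal_inter_add_sdiff (μ := volume) (s := closedBall x (rd n)) (t := E) hE
    (measure_closedBall_lt_top).ne
  rw [← h, inter_comm E, inter_comm Eᶜ]
  rfl

/-- the points where `E` has density one -/
def D1 (E : Set ℂ) : Set ℂ := {x | Tendsto (fun n => den Eᶜ n x) atTop (𝓝 0)}

theorem disj_D {E : Set ℂ} (hE : MeasurableSet E) {x : ℂ} (h1 : x ∈ D1 E) (h2 : x ∈ D1 Eᶜ) :
    False := by
  unfold D1 at h1 h2
  rw [mem_ofPred] at h1 h2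
  rw [compl_compl] at h2
  have h3 := h2.add h1
  simp only [den_add hE] at h3
  have := tendsto_nhds_unique h3 tendsto_const_nhds
  norm_num at this

theorem ae_D_aux {E : Set ℂ} (hE : MeasurableSet E) : ∀ᵐ x : ℂ, x ∉ E → x ∈ D1 Eᶜ := by
  filter_upwards [Besicovitch.ae_tendsto_measure_inter_div_of_measurableSet volume hE] with x hx h
  rw [indicator_of_notMem h] at hx
  have h1 : Tendsto rd atTop (𝓝[>] 0) :=
    tendsto_nhdsWithin_iff.2 ⟨tendsto_rd, Eventually.of_forall fun n => rd_pos n⟩
  have h2 := (ENNReal.tendsto_toReal (ENNReal.zero_ne_top)).comp (hx.comp h1)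
  unfold D1
  rw [mem_ofPred, compl_compl]
  refine h2.congr fun n => ?_
  simp only [Function.comp_apply, ENNReal.toReal_div]
  unfold den
  rw [← ar_center x n]
  rfl

theorem ae_D {E : Set ℂ} (hE : MeasurableSet E) :
    ∀ᵐ x : ℂ, (x ∈ E → x ∈ D1 E) ∧ (x ∉ E → x ∈ D1 Eᶜ) := by
  have h := ae_D_aux hE.compl
  rw [compl_compl] at h
  filter_upwards [ae_D_aux hE, h] with x a b
  exact ⟨fun c => b (fun d => d c), a⟩

theorem continuous_den {E : Set ℂ} (hE : MeasurableSet E) (n : ℕ) : Continuous (den E n) := by
  unfold den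
  apply Continuous.div_const
  have h1 : (fun x => volume.real (E ∩ closedBall x (rd n))) =
      fun x => ∫ z, (E ∩ closedBall x (rd n)).indicator (fun _ => (1 : ℝ)) z := by
    funext x
    rw [integral_indicator_const _ (hE.inter measurableSet_closedBall)]
    simp
  rw [h1, continuous_iff_continuousAt]
  intro x₀
  apply continuousAt_of_dominated
    (bound := (closedBall x₀ (rd n + 1)).indicator (fun _ => (1 : ℝ)))
  · exact Eventually.of_forall fun x =>
      (measurable_const.indicator (hE.inter measurableSet_closedBall)).aestronglyMeasurable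
  · filter_upwards [ball_mem_nhds x₀ one_pos] with x hx
    refine Eventually.of_forall fun z => ?_
    by_cases hz : z ∈ E ∩ closedBall x (rd n)
    · rw [indicator_of_mem hz, indicator_of_mem, norm_one]
      have h2 := hz.2
      rw [mem_closedBall] at h2 ⊢
      rw [mem_ball] at hx
      linarith [dist_triangle z x x₀]
    · rw [indicator_of_notMem hz, norm_zero]
      exact indicator_nonneg (fun _ _ => zero_le_one) _
  · rw [integrable_indicator_iff measurableSet_closedBall]
    exact integrableOn_const (measure_closedBall_lt_top).ne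
  · have hs : ∀ᵐ z : ℂ, z ∉ sphere x₀ (rd n) :=
      measure_eq_zero_iff_ae_notMem.1 (Measure.addHaar_sphere volume x₀ (rd n))
    filter_upwards [hs] with z hz
    rw [mem_sphere] at hz
    by_cases hzE : z ∈ E
    · rcases lt_or_gt_of_ne hz with h | h
      · have : (fun x => (E ∩ closedBall x (rd n)).indicator (fun _ => (1 : ℝ)) z) =ᶠ[𝓝 x₀]
            fun _ => 1 := by
          filter_upwards [ball_mem_nhds x₀ (sub_pos.2 h)] with x hx
          rw [mem_ball] at hx
          apply indicator_of_mem
          refine ⟨hzE, ?_⟩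
          rw [mem_closedBall]
          linarith [dist_triangle z x₀ x, dist_comm x x₀]
        exact (continuousAt_const).congr this.symm
      · have : (fun x => (E ∩ closedBall x (rd n)).indicator (fun _ => (1 : ℝ)) z) =ᶠ[𝓝 x₀]
            fun _ => 0 := by
          filter_upwards [ball_mem_nhds x₀ (sub_pos.2 h)] with x hx
          rw [mem_ball] at hx
          apply indicator_of_notMem
          rintro ⟨-, hc⟩
          rw [mem_closedBall] at hc
          linarith [dist_triangle z x x₀]
        exact (continuousAt_const).congr this.symm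
    · have : (fun x => (E ∩ closedBall x (rd n)).indicator (fun _ => (1 : ℝ)) z) =
            fun _ => 0 := by
        funext x
        exact indicator_of_notMem (fun hc => hzE hc.1) _
      rw [this]
      exact continuousAt_const

/-- three translates -/
theorem flip_aux {S : Set ℂ} {x₀ y z : ℂ} (hx : x₀ ∉ D1 Sᶜ) (hy : y ∈ D1 S)
    (hz : z ∈ D1 S) : ∃ w, x₀ + w ∈ S ∧ y + w ∈ S ∧ z + w ∈ S := by
  by_contra hno
  push Not at hno
  apply hx
  unfold D1 at hy hz ⊢
  rw [mem_ofPred] at hy hz ⊢
  rw [compl_compl]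
  have h1 := hy.add hz
  rw [add_zero] at h1
  refine squeeze_zero (fun n => den_nonneg _ _ _) (fun n => ?_) h1
  unfold den
  rw [← add_div]
  apply div_le_div_of_nonneg_right _ (ar_pos n).le
  have hsub : S ∩ closedBall x₀ (rd n) ⊆
      ((fun p => p + (y - x₀)) ⁻¹' (Sᶜ ∩ closedBall y (rd n))) ∪
        ((fun p => p + (z - x₀)) ⁻¹' (Sᶜ ∩ closedBall z (rd n))) := by
    rintro p ⟨hp, hpb⟩
    rw [mem_closedBall, dist_eq_norm] at hpb
    have h2 := hno (p - x₀) (by rwa [add_sub_cancel])
    by_cases h3 : y + (p - x₀) ∈ S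
    · right
      refine ⟨?_, ?_⟩
      · have := h2 h3
        rwa [show z + (p - x₀) = p + (z - x₀) by ring] at this
      · rw [mem_closedBall, dist_eq_norm, show p + (z - x₀) - z = p - x₀ by ring]
        exact hpb
    · left
      refine ⟨?_, ?_⟩
      · rwa [show y + (p - x₀) = p + (y - x₀) by ring] at h3
      · rw [mem_closedBall, dist_eq_norm, show p + (y - x₀) - y = p - x₀ by ring]
        exact hpb
  have m1 : volume ((fun p => p + (y - x₀)) ⁻¹' (Sᶜ ∩ closedBall y (rd n))) =
      volume (Sᶜ ∩ closedBall y (rd n)) := measure_preimage_add_right _ _ _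
  have m2 : volume ((fun p => p + (z - x₀)) ⁻¹' (Sᶜ ∩ closedBall z (rd n))) =
      volume (Sᶜ ∩ closedBall z (rd n)) := measure_preimage_add_right _ _ _
  have h3 : volume (S ∩ closedBall x₀ (rd n)) ≤
      volume (Sᶜ ∩ closedBall y (rd n)) + volume (Sᶜ ∩ closedBall z (rd n)) := by
    calc _ ≤ _ := measure_mono hsub
      _ ≤ _ := measure_union_le _ _
      _ = _ := by rw [m1, m2]
  have h4 := ENNReal.toReal_mono (ENNReal.add_ne_top.2 ⟨ball_ne_top _ _ _, ball_ne_top _ _ _⟩) h3
  rw [ENNReal.toReal_add (ball_ne_top _ _ _) (ball_ne_top _ _ _)] at h4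
  exact h4

theorem measurable_D1 {E : Set ℂ} (hE : MeasurableSet E) : MeasurableSet (D1 E) := by
  unfold D1
  exact measurableSet_tendsto _ (fun n => (continuous_den hE.compl n).measurable)

end Pool.Agent.N862.MC
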