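import Mathlib

/-!
The lemma of Erdos, Graham, Montgomery, Rothschild, Spencer and Straus on monochromatic triangles
and monochromatic equilateral triangles on their sides, in the form needed for measurable colourings.
(helper862)
-/

set_option autoImplicit false
set_option maxHeartbeats 4000000

namespace Pool.Agent.N862.MC

/-- the sixth root of unity -/
noncomputable def om : ℂ := ⟨1 / 2, √3 / 2⟩

theorem om_sq : om * om = om - 1 := by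
  have h : √3 * √3 = 3 := Real.mul_self_sqrt (by norm_num)
  apply Complex.ext
  · simp only [om, Complex.mul_re, Complex.sub_re, Complex.one_re]; nlinarith
  · simp only [om, Complex.mul_im, Complex.sub_im, Complex.one_im]; ring

theorem norm_om : ‖om‖ = 1 := by
  have h : √3 * √3 = 3 := Real.mul_self_sqrt (by norm_num)
  rw [← sq_eq_sq₀ (norm_nonneg _) (by norm_num), ← Complex.normSq_eq_norm_sq, Complex.normSq_apply]
  simp only [om]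
  nlinarith

theorem norm_om_sub : ‖om - 1‖ = 1 := by
  rw [← om_sq, norm_mul, norm_om, mul_one]

theorem norm_sub_om : ‖1 - om‖ = 1 := by
  rw [norm_sub_rev, norm_om_sub]

/-- no monochromatic triple -/
def NM (E : Set ℂ) (x y z : ℂ) : Prop := ¬ (x ∈ E ∧ y ∈ E ∧ z ∈ E) ∧ ¬ (x ∉ E ∧ y ∉ E ∧ z ∉ E)

/-- pure logic -/
theorem prop_one {x u v p1 p3 p4 p5 p7 : Prop}
    (t1 : ¬(x ∧ u ∧ p3) ∧ ¬(¬x ∧ ¬u ∧ ¬p3))
    (t2 : ¬(p1 ∧ p5 ∧ p3) ∧ ¬(¬p1 ∧ ¬p5 ∧ ¬p3))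
    (t3 : ¬(u ∧ v ∧ p4) ∧ ¬(¬u ∧ ¬v ∧ ¬p4))
    (t4 : ¬(u ∧ p7 ∧ p5) ∧ ¬(¬u ∧ ¬p7 ∧ ¬p5))
    (t5 : ¬(p1 ∧ p4 ∧ p7) ∧ ¬(¬p1 ∧ ¬p4 ∧ ¬p7))
    (t6 : ¬(x ∧ v ∧ p1) ∧ ¬(¬x ∧ ¬v ∧ ¬p1)) :
    ¬(x ∧ u ∧ v) ∧ ¬(¬x ∧ ¬u ∧ ¬v) := by
  by_cases a0 : x <;> by_cases a1 : u <;> by_cases a2 : v <;> by_cases a3 : p1 <;>
    by_cases a4 : p3 <;> by_cases a5 : p4 <;> by_cases a6 : p5 <;> by_cases a7 : p7 <;> simp_all

/-- pure logic -/
theorem prop_two {x u w pA pB pC pD pE : Prop}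
    (t1 : ¬(u ∧ x ∧ pE) ∧ ¬(¬u ∧ ¬x ∧ ¬pE))
    (t2 : ¬(u ∧ w ∧ pC) ∧ ¬(¬u ∧ ¬w ∧ ¬pC))
    (t3 : ¬(x ∧ w ∧ pB) ∧ ¬(¬x ∧ ¬w ∧ ¬pB))
    (t4 : ¬(pA ∧ pC ∧ pB) ∧ ¬(¬pA ∧ ¬pC ∧ ¬pB))
    (t5 : ¬(pC ∧ pD ∧ pE) ∧ ¬(¬pC ∧ ¬pD ∧ ¬pE))
    (t6 : ¬(pA ∧ pD ∧ x) ∧ ¬(¬pA ∧ ¬pD ∧ ¬x)) :
    ¬(x ∧ u ∧ w) ∧ ¬(¬x ∧ ¬u ∧ ¬w) := by
  by_cases a0 : x <;> by_cases a1 : u <;> by_cases a2 : w <;> by_cases a3 : pA <;>
    by_cases a4 : pB <;> by_cases a5 : pC <;> by_cases a6 : pD <;> by_cases a7 : pE <;> simp_all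

theorem eg_one {E : Set ℂ} {u v : ℂ}
    (H : ∀ p w : ℂ, (‖w‖ = ‖u‖ ∨ ‖w‖ = ‖v‖ ∨ ‖w‖ = ‖u - v‖) → NM E p (p + w) (p + om * w)) (x : ℂ) :
    NM E x (x + u) (x + v) := by
  have t1 := H x u (Or.inl rfl)
  have t2 := H (x + om * v) (u - v) (Or.inr (Or.inr rfl))
  have t3 := H (x + u) (v - u) (Or.inr (Or.inr (norm_sub_rev _ _)))
  have t4 := H (x + u) (om * v) (Or.inr (Or.inl (by rw [norm_mul, norm_om, one_mul])))
  have t5 := H (x + om * v) ((1 - om) * u) (Or.inl (by rw [norm_mul, norm_sub_om, one_mul]))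
  have t6 := H x v (Or.inr (Or.inl rfl))
  obtain ⟨p3, h3⟩ : ∃ p, p = x + om * u := ⟨_, rfl⟩
  obtain ⟨p1, h1⟩ : ∃ p, p = x + om * v := ⟨_, rfl⟩
  obtain ⟨p4, h4⟩ : ∃ p, p = x + u - om * u + om * v := ⟨_, rfl⟩
  obtain ⟨p5, h5⟩ : ∃ p, p = x + u - v + om * v := ⟨_, rfl⟩
  obtain ⟨p7, h7⟩ : ∃ p, p = x + u + om * v := ⟨_, rfl⟩
  rw [← h3] at t1
  rw [show x + om * v + (u - v) = p5 by rw [h5]; ring,
    show x + om * v + om * (u - v) = p3 by rw [h3]; ring, ← h1] at t2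
  rw [show x + u + (v - u) = x + v by ring,
    show x + u + om * (v - u) = p4 by rw [h4]; ring] at t3
  rw [← h7, show x + u + om * (om * v) = p5 by
    rw [h5, ← mul_assoc, om_sq]; ring] at t4
  rw [show x + om * v + (1 - om) * u = p4 by rw [h4]; ring,
    show x + om * v + om * ((1 - om) * u) = p7 by
      rw [h7, show om * ((1 - om) * u) = (om - om * om) * u by ring, om_sq]; ring, ← h1] at t5
  rw [← h1] at t6
  exact prop_one t1 t2 t3 t4 t5 t6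

theorem eg_two {E : Set ℂ} {u v : ℂ}
    (H : ∀ p s : ℂ, ‖s‖ = 1 → NM E p (p + s * u) (p + s * v)) (x : ℂ) :
    NM E x (x + u) (x + om * u) := by
  have t1 := H (x + u) (-1) (by simp)
  have t2 := H (x + u) (om - 1) norm_om_sub
  have t3 := H x om norm_om
  have t4 := H (x + om * v - v) 1 (by simp)
  have t5 := H (x + u - v + om * v) (-om) (by rw [norm_neg, norm_om])
  have t6 := H (x + om * v - v) (1 - om) norm_sub_om
  obtain ⟨pA, hA⟩ : ∃ p, p = x + om * v - v := ⟨_, rfl⟩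
  obtain ⟨pB, hB⟩ : ∃ p, p = x + om * v := ⟨_, rfl⟩
  obtain ⟨pC, hC⟩ : ∃ p, p = x + u - v + om * v := ⟨_, rfl⟩
  obtain ⟨pD, hD⟩ : ∃ p, p = x + u - om * u - v + om * v := ⟨_, rfl⟩
  obtain ⟨pE, hE⟩ : ∃ p, p = x + u - v := ⟨_, rfl⟩
  rw [show x + u + -1 * u = x by ring, show x + u + -1 * v = pE by rw [hE]; ring] at t1
  rw [show x + u + (om - 1) * u = x + om * u by ring,
    show x + u + (om - 1) * v = pC by rw [hC]; ring] at t2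
  rw [← hB] at t3
  rw [show x + om * v - v + 1 * u = pC by rw [hC]; ring,
    show x + om * v - v + 1 * v = pB by rw [hB]; ring, ← hA] at t4
  rw [show x + u - v + om * v + -om * u = pD by rw [hD]; ring,
    show x + u - v + om * v + -om * v = pE by rw [hE]; ring, ← hC] at t5
  rw [show x + om * v - v + (1 - om) * u = pD by rw [hD]; ring,
    show x + om * v - v + (1 - om) * v = x by ring, ← hA] at t6
  exact prop_two t1 t2 t3 t4 t5 t6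

end Pool.Agent.N862.MC
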