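import Pool.Agent.N862.MC.Den

/-!
Nested discs: a planar set that is neither null nor co-null has a point where both the set and its
complement have positive upper density. (helper862)
-/

set_option autoImplicit false

open MeasureTheory Set Filter Metric Topology

namespace Pool.Agent.N862.MC

theorem ae_notMem_sphere (c : ℂ) (n : ℕ) : ∀ᵐ z : ℂ, z ∉ sphere c (rd n) :=
  measure_eq_zero_iff_ae_notMem.1 (Measure.addHaar_sphere volume c (rd n))

theorem step {E : Set ℂ} (hE : MeasurableSet E) {c : ℂ} {r : ℝ} (hp : ∃ p ∈ ball c r, p ∈ D1 E)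
    (hq : ∃ q ∈ ball c r, q ∈ D1 Eᶜ) (N : ℕ) :
    ∃ c' n, N ≤ n ∧ closedBall c' (rd n) ⊆ ball c r ∧ den E n c' = 1 / 2 := by
  obtain ⟨p, hpb, hp⟩ := hp
  obtain ⟨q, hqb, hq⟩ := hq
  rw [mem_ball] at hpb hqb
  unfold D1 at hp hq
  rw [mem_ofPred] at hp hq
  rw [compl_compl] at hq
  have e1 : ∀ᶠ n in atTop, den Eᶜ n p < 1 / 2 := hp.eventually (gt_mem_nhds (by norm_num))
  have e2 : ∀ᶠ n in atTop, den E n q < 1 / 2 := hq.eventually (gt_mem_nhds (by norm_num))
  have e3 : ∀ᶠ n in atTop, rd n < r - dist p c := tendsto_rd.eventually (gt_mem_nhds (by linarith))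
  have e4 : ∀ᶠ n in atTop, rd n < r - dist q c := tendsto_rd.eventually (gt_mem_nhds (by linarith))
  obtain ⟨n, h1, h2, h3, h4, h5⟩ := (e1.and (e2.and (e3.and (e4.and (eventually_ge_atTop N))))).exists
  have h6 : 1 / 2 ≤ den E n p := by linarith [den_add hE n p]
  have hiv := (convex_segment q p).isPreconnected.intermediate_value (left_mem_segment ℝ q p)
    (right_mem_segment ℝ q p) (continuous_den hE n).continuousOn
  obtain ⟨c', hc', hc2⟩ := hiv ⟨h2.le, h6⟩
  refine ⟨c', n, h5, ?_, hc2⟩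
  have hb : c' ∈ ball c (r - rd n) := by
    have := (convex_ball c (r - rd n)).segment_subset (x := q) (y := p)
      (by rw [mem_ball]; linarith) (by rw [mem_ball]; linarith)
    exact this hc'
  rw [mem_ball] at hb
  intro z hz
  rw [mem_closedBall] at hz
  rw [mem_ball]
  linarith [dist_triangle z c' c]

theorem half_pos' {E : Set ℂ} (hE : MeasurableSet E) {n : ℕ} {c : ℂ} (h : den E n c = 1 / 2) :
    ∃ p ∈ ball c (rd n), p ∈ D1 E := by
  by_contra hno
  push Not at hno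
  have h0 : volume (E ∩ closedBall c (rd n)) = 0 := by
    rw [measure_eq_zero_iff_ae_notMem]
    filter_upwards [ae_D hE, ae_notMem_sphere c n] with x hx hs hm
    have h1 : x ∈ ball c (rd n) := by
      rw [mem_ball]
      have h2 := hm.2
      rw [mem_closedBall] at h2
      rw [mem_sphere] at hs
      exact lt_of_le_of_ne h2 hs
    exact hno x h1 (hx.1 hm.1)
  unfold den Measure.real at h
  rw [h0] at h
  simp at h

theorem low {S : Set ℂ} {m : ℕ} {c x : ℂ} (h : den S (m + 1) c = 1 / 2)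
    (hx : x ∈ closedBall c (rd (m + 1))) : 1 / 8 ≤ den S m x := by
  unfold den at h ⊢
  have p1 := ar_pos (m + 1)
  have p0 := ar_pos m
  rw [div_eq_iff p1.ne'] at h
  rw [le_div_iff₀ p0]
  have har : ar m = 4 * ar (m + 1) := by
    rw [ar_eq, ar_eq, rd_succ]; ring
  have hsub : S ∩ closedBall c (rd (m + 1)) ⊆ S ∩ closedBall x (rd m) := by
    rintro z ⟨hz, hzb⟩
    refine ⟨hz, ?_⟩
    rw [mem_closedBall] at hzb hx ⊢
    rw [rd_succ] at hzb hx
    linarith [dist_triangle z c x, dist_comm x c]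
  have := measureReal_mono hsub (ball_ne_top S m x)
  rw [h] at this
  linarith

theorem exists_both {E : Set ℂ} (hE : MeasurableSet E) (h1 : volume E ≠ 0) (h2 : volume Eᶜ ≠ 0) :
    ∃ x, x ∉ D1 E ∧ x ∉ D1 Eᶜ := by
  obtain ⟨p, hp⟩ : ∃ p, p ∈ D1 E := by
    by_contra hno
    push Not at hno
    apply h1
    rw [measure_eq_zero_iff_ae_notMem]
    filter_upwards [ae_D hE] with x hx hm
    exact hno x (hx.1 hm)
  obtain ⟨q, hq⟩ : ∃ q, q ∈ D1 Eᶜ := by
    by_contra hno
    push Not at hno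
    apply h2
    rw [measure_eq_zero_iff_ae_notMem]
    filter_upwards [ae_D hE] with x hx hm
    exact hno x (hx.2 hm)
  obtain ⟨c0, n0, -, -, h0⟩ := step hE (c := p) (r := dist q p + 1)
    ⟨p, by rw [mem_ball, dist_self]; positivity, hp⟩ ⟨q, by rw [mem_ball]; linarith, hq⟩ 0
  have next : ∀ s : {s : ℂ × ℕ // den E s.2 s.1 = 1 / 2}, ∃ s' : {s : ℂ × ℕ // den E s.2 s.1 = 1 / 2},
      s.1.2 + 1 ≤ s'.1.2 ∧ closedBall s'.1.1 (rd s'.1.2) ⊆ closedBall s.1.1 (rd s.1.2) := by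
    intro s
    have hc : den Eᶜ s.1.2 s.1.1 = 1 / 2 := by linarith [den_add hE s.1.2 s.1.1, s.2]
    obtain ⟨c', n', a, b, d⟩ := step hE (half_pos' hE s.2) (half_pos' hE.compl hc) (s.1.2 + 1)
    exact ⟨⟨(c', n'), d⟩, a, b.trans ball_subset_closedBall⟩
  choose nx hnx1 hnx2 using next
  obtain ⟨sq, hsq⟩ : ∃ sq : ℕ → {s : ℂ × ℕ // den E s.2 s.1 = 1 / 2},
      sq = fun k => Nat.rec ⟨(c0, n0), h0⟩ (fun _ s => nx s) k := ⟨_, rfl⟩
  have hs : ∀ k, sq (k + 1) = nx (sq k) := by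
    intro k
    rw [hsq]
  have hge : ∀ k, k ≤ (sq k).1.2 := by
    intro k
    induction k with
    | zero => exact Nat.zero_le _
    | succ k ih =>
      rw [hs]
      have := hnx1 (sq k)
      omega
  obtain ⟨x, hx⟩ := IsCompact.nonempty_iInter_of_sequence_nonempty_isCompact_isClosed
    (fun k => closedBall (sq k).1.1 (rd (sq k).1.2))
    (fun k => by
      simp only [hs]
      exact hnx2 (sq k))
    (fun k => ⟨(sq k).1.1, mem_closedBall_self (rd_pos _).le⟩)
    (isCompact_closedBall _ _)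
    (fun k => isClosed_closedBall)
  rw [mem_iInter] at hx
  have hlow : ∀ N, ∃ m, N ≤ m ∧ 1 / 8 ≤ den E m x ∧ 1 / 8 ≤ den Eᶜ m x := by
    intro N
    have h3 := hge (N + 1)
    obtain ⟨m, hm⟩ : ∃ m, (sq (N + 1)).1.2 = m + 1 := ⟨(sq (N + 1)).1.2 - 1, by omega⟩
    have h4 := (sq (N + 1)).2
    have h5 := hx (N + 1)
    have h6 : den Eᶜ (sq (N + 1)).1.2 (sq (N + 1)).1.1 = 1 / 2 := by
      linarith [den_add hE (sq (N + 1)).1.2 (sq (N + 1)).1.1]
    rw [hm] at h4 h6
    simp only [hm] at h5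
    exact ⟨m, by omega, low h4 h5, low h6 h5⟩
  refine ⟨x, ?_, ?_⟩
  · intro h
    unfold D1 at h
    rw [mem_ofPred] at h
    obtain ⟨N, hN⟩ := eventually_atTop.1 (h.eventually (gt_mem_nhds (show (0 : ℝ) < 1 / 8 by norm_num)))
    obtain ⟨m, hm, a, b⟩ := hlow N
    linarith [hN m hm]
  · intro h
    unfold D1 at h
    rw [mem_ofPred, compl_compl] at h
    obtain ⟨N, hN⟩ := eventually_atTop.1 (h.eventually (gt_mem_nhds (show (0 : ℝ) < 1 / 8 by norm_num)))
    obtain ⟨m, hm, a, b⟩ := hlow N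
    linarith [hN m hm]

end Pool.Agent.N862.MC
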