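import Mathlib

/-!
Sums of two cosines of rational angles with odd denominator. (helper862)
-/

set_option autoImplicit false

open Polynomial

namespace Pool.Agent.N862.MC

theorem cos_pair {m : ℕ} (hm : Odd m) (s t : ℤ)
    (h : Real.cos (2 * Real.pi * s / m) + Real.cos (2 * Real.pi * t / m) = 1 / 2) :
    Real.cos (2 * (2 * Real.pi * s / m)) + Real.cos (2 * (2 * Real.pi * t / m)) = 1 / 2 := by
  have hm0 : m ≠ 0 := by rintro rfl; simp at hm
  have hmZ : (m : ℤ) ≠ 0 := by exact_mod_cast hm0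
  have hmC : (m : ℂ) ≠ 0 := by exact_mod_cast hm0
  obtain ⟨ζ, hζ⟩ : ∃ ζ : ℂ, ζ = Complex.exp (2 * Real.pi * Complex.I / m) := ⟨_, rfl⟩
  have hpr : IsPrimitiveRoot ζ m := by
    rw [hζ]; exact Complex.isPrimitiveRoot_exp m hm0
  have hζ0 : ζ ≠ 0 := by rw [hζ]; exact Complex.exp_ne_zero _
  -- powers and cosines
  have key : ∀ (j : ℤ) (r : ℤ), ζ ^ (j * r) + ζ ^ (-(j * r)) =
      ((2 * Real.cos (j * (2 * Real.pi * r / m)) : ℝ) : ℂ) := by
    intro j r
    have e1 : ∀ k : ℤ, ζ ^ k = Complex.exp (((2 * Real.pi * k / m : ℝ) : ℂ) * Complex.I) := by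
      intro k
      rw [hζ, ← Complex.exp_int_mul]
      congr 1
      push_cast
      ring
    rw [e1, e1]
    push_cast
    rw [Complex.two_cos]
    congr 2 <;> ring
  obtain ⟨a, ha⟩ : ∃ a : ℕ, (a : ℤ) ≡ s [ZMOD m] := by
    refine ⟨(s % m).toNat, ?_⟩
    rw [Int.toNat_of_nonneg (Int.emod_nonneg _ hmZ)]
    exact Int.mod_modEq _ _
  obtain ⟨b, hb⟩ : ∃ b : ℕ, (b : ℤ) ≡ t [ZMOD m] := by
    refine ⟨(t % m).toNat, ?_⟩
    rw [Int.toNat_of_nonneg (Int.emod_nonneg _ hmZ)]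
    exact Int.mod_modEq _ _
  have zmod : ∀ k l : ℤ, k ≡ l [ZMOD m] → ζ ^ k = ζ ^ l := by
    intro k l hkl
    obtain ⟨c, hc⟩ := hkl.dvd
    rw [show l = k + m * c by linarith, zpow_add₀ hζ0, zpow_mul, zpow_natCast, hpr.pow_eq_one,
      one_zpow, mul_one]
  obtain ⟨P, hP⟩ : ∃ P : ℤ[X], P = X ^ a + X ^ ((m - 1) * a) + X ^ b + X ^ ((m - 1) * b) - 1 :=
    ⟨_, rfl⟩
  have heval : ∀ j : ℤ, aeval (ζ ^ j) P =
      ((2 * Real.cos (j * (2 * Real.pi * s / m)) + 2 * Real.cos (j * (2 * Real.pi * t / m)) - 1 : ℝ)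
        : ℂ) := by
    intro j
    have hp : ∀ (c : ℕ) (r : ℤ), (c : ℤ) ≡ r [ZMOD m] →
        (ζ ^ j) ^ c + (ζ ^ j) ^ ((m - 1) * c) =
          ((2 * Real.cos (j * (2 * Real.pi * r / m)) : ℝ) : ℂ) := by
      intro c r hc
      rw [← key]
      congr 1
      · rw [← zpow_natCast, ← zpow_mul]
        exact zmod _ _ (hc.mul_left j)
      · rw [← zpow_natCast, ← zpow_mul]
        apply zmod
        push_cast [Nat.cast_sub (Nat.one_le_iff_ne_zero.2 hm0)]
        have h1 : j * (((m : ℤ) - 1) * c) ≡ j * ((0 - 1) * r) [ZMOD m] := by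
          apply Int.ModEq.mul_left
          apply Int.ModEq.mul _ hc
          apply Int.ModEq.sub _ rfl
          exact (Int.modEq_zero_iff_dvd.2 dvd_rfl)
        rw [show -(j * r) = j * ((0 - 1) * r) by ring]
        exact h1
    rw [hP]
    simp only [map_sub, map_add, map_pow, aeval_X, map_one]
    rw [add_assoc, hp b t hb, hp a s ha]
    push_cast
    ring
  have h0 : aeval ζ P = 0 := by
    have := heval 1
    rw [zpow_one] at this
    rw [this, Int.cast_one, one_mul, one_mul]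
    rw [show 2 * Real.cos (2 * Real.pi * s / m) + 2 * Real.cos (2 * Real.pi * t / m) - 1 = 0 by
      linarith]
    simp
  have hint : IsIntegral ℤ ζ := hpr.isIntegral (Nat.pos_of_ne_zero hm0)
  have hdvd : minpoly ℤ ζ ∣ P := minpoly.isIntegrallyClosed_dvd hint h0
  have hco : Nat.Coprime 2 m := by
    rw [Nat.coprime_two_left]; exact hm
  have hmin : minpoly ℤ ζ = minpoly ℤ (ζ ^ 2) := hpr.minpoly_eq_pow_coprime hco
  rw [hmin] at hdvd
  have h2 : aeval (ζ ^ 2) P = 0 := by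
    obtain ⟨Q, hQ⟩ := hdvd
    rw [hQ, map_mul, minpoly.aeval, zero_mul]
  have h3 := heval 2
  rw [show (ζ : ℂ) ^ (2 : ℤ) = ζ ^ 2 by norm_cast, h2] at h3
  have h4 : (2 * Real.cos ((2 : ℤ) * (2 * Real.pi * s / m)) +
      2 * Real.cos ((2 : ℤ) * (2 * Real.pi * t / m)) - 1 : ℝ) = 0 := by
    exact_mod_cast h3.symm
  push_cast at h4
  linarith

theorem cos_pair_val {m : ℕ} (hm : Odd m) {A B : ℝ} (s t : ℤ)
    (hA : A = 2 * Real.pi * s / m) (hB : B = 2 * Real.pi * t / m)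
    (h : Real.cos A + Real.cos B = 1 / 2) : Real.cos A = 1 ∨ Real.cos A = - 1 / 2 := by
  have h2 := cos_pair hm s t (by rw [← hA, ← hB]; exact h)
  rw [← hA, ← hB, Real.cos_two_mul, Real.cos_two_mul] at h2
  have h3 : Real.cos B = 1 / 2 - Real.cos A := by linarith
  rw [h3] at h2
  have h4 : (Real.cos A - 1) * (Real.cos A + 1 / 2) = 0 := by nlinarith
  rcases mul_eq_zero.1 h4 with h5 | h5
  · left; linarith
  · right; linarith

end Pool.Agent.N862.MC
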