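import Pool.Agent.N862.MC.Circ
import Pool.Agent.N862.MC.Nest
import Pool.Agent.N862.MC.Nt
import Pool.Agent.N862.MC.Eg

/-!
A null measurable planar set and its complement cannot both avoid equilateral triangles of two
different sides `a < b < 2 * a`. (helper862)
-/

set_option autoImplicit false

open MeasureTheory Set Filter

namespace Pool.Agent.N862.MC

/-- the point of mixed density with generic circles -/
theorem good_point {E : Set ℂ} (hE : MeasurableSet E) (h1 : volume E ≠ 0) (h2 : volume Eᶜ ≠ 0)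
    {a b : ℝ} (ha : 0 < a) (hb : 0 < b) :
    ∃ x₀, x₀ ∉ D1 E ∧ x₀ ∉ D1 Eᶜ ∧
      (∀ᵐ θ : ℝ, x₀ + a * ex θ ∉ {x | x ∉ D1 E ∧ x ∉ D1 Eᶜ}) ∧
      (∀ᵐ θ : ℝ, x₀ + b * ex θ ∉ {x | x ∉ D1 E ∧ x ∉ D1 Eᶜ}) := by
  obtain ⟨N, hN⟩ : ∃ N : Set ℂ, N = {x | x ∉ D1 E ∧ x ∉ D1 Eᶜ} := ⟨_, rfl⟩
  have h0 : volume N = 0 := by
    rw [measure_eq_zero_iff_ae_notMem]
    filter_upwards [ae_D hE] with x hx hm
    rw [hN] at hm
    by_cases h : x ∈ E
    · exact hm.1 (hx.1 h)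
    · exact hm.2 (hx.2 h)
  rw [← hN]
  obtain ⟨x, hx1, hx2⟩ := exists_both hE h1 h2
  have hmem : ∀ x, x ∈ N → x ∉ D1 E ∧ x ∉ D1 Eᶜ := by
    intro x hx
    rw [hN] at hx
    exact hx
  have gen : ∀ r : ℝ, 0 < r → (¬ ∀ᵐ θ : ℝ, x + r * ex θ ∉ N) →
      ∃ x₀, x₀ ∉ D1 E ∧ x₀ ∉ D1 Eᶜ ∧ (∀ᵐ θ : ℝ, x₀ + a * ex θ ∉ N) ∧
        (∀ᵐ θ : ℝ, x₀ + b * ex θ ∉ N) := by
    intro r hr hno
    have f1 : ∃ᶠ θ : ℝ in ae volume, x + r * ex θ ∈ N := by
      intro h
      exact hno h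
    have e := (falconer h0 x hr ha).and (falconer h0 x hr hb)
    obtain ⟨θ, hθ, k1, k2⟩ := (f1.and_eventually e).exists
    exact ⟨x + r * ex θ, (hmem _ hθ).1, (hmem _ hθ).2, k1, k2⟩
  by_cases c1 : ∀ᵐ θ : ℝ, x + a * ex θ ∉ N
  · by_cases c2 : ∀ᵐ θ : ℝ, x + b * ex θ ∉ N
    · exact ⟨x, hx1, hx2, c1, c2⟩
    · exact gen b hb c2
  · exact gen a ha c1

theorem om_eq : om = ex (Real.pi / 3) := by
  apply Complex.ext
  · unfold om ex
    rw [Complex.exp_ofReal_mul_I_re, Real.cos_pi_div_three]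
  · unfold om ex
    rw [Complex.exp_ofReal_mul_I_im, Real.sin_pi_div_three]

theorem norm_third (a b t φ : ℝ) :
    ‖(a : ℂ) * ex t - b * ex (t + φ)‖ ^ 2 = a ^ 2 + b ^ 2 - 2 * a * b * Real.cos φ := by
  rw [ex_add, show (a : ℂ) * ex t - b * (ex t * ex φ) = ex t * (a - b * ex φ) by ring, norm_mul,
    norm_ex, one_mul, ← Complex.normSq_eq_norm_sq, Complex.normSq_apply]
  unfold ex
  rw [Complex.exp_mul_I, ← Complex.ofReal_cos, ← Complex.ofReal_sin]
  simp only [Complex.sub_re, Complex.sub_im, Complex.add_re, Complex.add_im, Complex.mul_re,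
    Complex.mul_im, Complex.ofReal_re, Complex.ofReal_im, Complex.I_re, Complex.I_im]
  nlinarith [Real.sin_sq_add_cos_sq φ]

theorem norm_real_ex {a : ℝ} (ha : 0 < a) (t : ℝ) : ‖(a : ℂ) * ex t‖ = a := by
  rw [norm_mul, norm_ex, mul_one, Complex.norm_real, Real.norm_eq_abs, abs_of_pos ha]

/-- the flip relation between two circles around a point of mixed density -/
theorem flip {E E' : Set ℂ} (hD : D1 E = D1 E') (hD' : D1 Eᶜ = D1 E'ᶜ)
    {x₀ : ℂ} (hx1 : x₀ ∉ D1 E') (hx2 : x₀ ∉ D1 E'ᶜ) {r s φ : ℝ}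
    (hr : ∀ᵐ θ : ℝ, x₀ + r * ex θ ∉ {x | x ∉ D1 E' ∧ x ∉ D1 E'ᶜ})
    (hs : ∀ᵐ θ : ℝ, x₀ + s * ex θ ∉ {x | x ∉ D1 E' ∧ x ∉ D1 E'ᶜ})
    (H : ∀ p : ℂ, ∀ t : ℝ, NM E p (p + r * ex t) (p + s * ex (t + φ))) :
    ∀ᵐ θ : ℝ, (x₀ + r * ex θ ∈ D1 E' ↔ x₀ + s * ex (θ + φ) ∉ D1 E') := by
  filter_upwards [hr, ae_add hs φ] with θ h1 h2
  have g : ∀ y z w : ℂ, y = x₀ + r * ex θ → z = x₀ + s * ex (θ + φ) →
      NM E (x₀ + w) (y + w) (z + w) := by
    intro y z w hy hz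
    have := H (x₀ + w) θ
    rw [hy, hz, show x₀ + r * ex θ + w = x₀ + w + r * ex θ by ring,
      show x₀ + s * ex (θ + φ) + w = x₀ + w + s * ex (θ + φ) by ring]
    exact this
  obtain ⟨y, hy⟩ : ∃ y, y = x₀ + r * ex θ := ⟨_, rfl⟩
  obtain ⟨z, hz⟩ : ∃ z, z = x₀ + s * ex (θ + φ) := ⟨_, rfl⟩
  rw [← hy] at h1 ⊢
  rw [← hz] at h2 ⊢
  constructor
  · intro hy1 hz1
    rw [← hD] at hy1 hz1
    rw [← hD'] at hx2
    obtain ⟨w, w1, w2, w3⟩ := flip_aux hx2 hy1 hz1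
    exact (g y z w hy hz).1 ⟨w1, w2, w3⟩
  · intro hz1
    by_contra hy1
    have hy2 : y ∈ D1 E'ᶜ := by
      by_contra hc
      exact h1 ⟨hy1, hc⟩
    have hz2 : z ∈ D1 E'ᶜ := by
      by_contra hc
      exact h2 ⟨hz1, hc⟩
    rw [← hD'] at hy2 hz2
    have hx3 : x₀ ∉ D1 Eᶜᶜ := by
      rw [compl_compl, hD]; exact hx1
    obtain ⟨w, w1, w2, w3⟩ := flip_aux hx3 hy2 hz2
    exact (g y z w hy hz).2 ⟨w1, w2, w3⟩

/-- the group of rotations preserving a set on the circle up to null sets -/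
def inv (S : Set ℝ) : AddSubgroup ℝ where
  carrier := {g | ∀ᵐ θ : ℝ, (θ + g ∈ S ↔ θ ∈ S)}
  zero_mem' := by
    rw [mem_ofPred]
    exact Eventually.of_forall fun θ => by rw [add_zero]
  add_mem' := by
    intro g h hg hh
    rw [mem_ofPred] at hg hh ⊢
    filter_upwards [hg, ae_add hh g] with θ a b
    rw [← a, ← b, add_assoc]
  neg_mem' := by
    intro g hg
    rw [mem_ofPred] at hg ⊢
    filter_upwards [ae_add hg (-g)] with θ a
    rw [← a, neg_add_cancel_right]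

theorem mem_inv {S : Set ℝ} {g : ℝ} : g ∈ inv S ↔ ∀ᵐ θ : ℝ, (θ + g ∈ S ↔ θ ∈ S) := Iff.rfl

/-- the arithmetic of the group of rotations -/
theorem no_group {S : Set ℝ} (hper : ∀ θ, θ + 2 * Real.pi ∈ S ↔ θ ∈ S)
    (hflip : ∀ᵐ θ : ℝ, (θ ∈ S ↔ θ + Real.pi / 3 ∉ S)) (hnd : ¬ Dense (inv S : Set ℝ)) {A B : ℝ}
    (hA : A ∈ inv S) (hB : B ∈ inv S) (hAB : Real.cos A + Real.cos B = 1 / 2) :
    Real.cos A = 1 ∨ Real.cos A = -1 / 2 := by
  have hpi : Real.pi ∉ inv S := by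
    intro h
    rw [mem_inv] at h
    have e : ∀ᵐ _ : ℝ, False := by
      filter_upwards [h, hflip, ae_add hflip (Real.pi / 3),
        ae_add (ae_add hflip (Real.pi / 3)) (Real.pi / 3)] with θ a b c d
      have e1 : θ + Real.pi / 3 + Real.pi / 3 + Real.pi / 3 = θ + Real.pi := by ring
      rw [e1] at d
      tauto
    rw [eventually_false_iff_eq_bot, ae_eq_bot] at e
    exact (NeZero.ne (volume : Measure ℝ)) e
  have h2pi : 2 * Real.pi ∈ inv S := by
    rw [mem_inv]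
    exact Eventually.of_forall hper
  rcases AddSubgroup.dense_or_cyclic (inv S) with h | ⟨g, hg⟩
  · exact absurd h hnd
  rw [hg, AddSubgroup.mem_closure_singleton] at h2pi hA hB hpi
  obtain ⟨k, hk⟩ := h2pi
  obtain ⟨i, hi⟩ := hA
  obtain ⟨j, hj⟩ := hB
  rw [zsmul_eq_mul] at hk hi hj
  have hk0 : k ≠ 0 := by
    rintro rfl
    simp at hk
  have hkR : (k : ℝ) ≠ 0 := by exact_mod_cast hk0
  have hodd : Odd k := by
    rw [← Int.not_even_iff_odd]
    rintro ⟨l, hl⟩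
    apply hpi
    refine ⟨l, ?_⟩
    rw [zsmul_eq_mul]
    rw [hl] at hk
    push_cast at hk
    linarith
  have hgv : g = 2 * Real.pi / k := by
    rw [eq_div_iff hkR]; linarith
  have hm : Odd k.natAbs := Int.natAbs_odd.2 hodd
  rcases Int.natAbs_eq k with hk1 | hk1
  · have hkc : (k : ℝ) = (k.natAbs : ℝ) := by
      have := congrArg (fun z : ℤ => (z : ℝ)) hk1
      simpa using this
    apply cos_pair_val hm i j _ _ hAB
    · rw [← hi, hgv, hkc]; ring
    · rw [← hj, hgv, hkc]; ring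
  · have hkc : (k : ℝ) = -(k.natAbs : ℝ) := by
      have := congrArg (fun z : ℤ => (z : ℝ)) hk1
      push_cast at this
      simpa using this
    apply cos_pair_val hm (-i) (-j) _ _ hAB
    · rw [← hi, hgv, hkc]; push_cast; rw [div_neg]; ring
    · rw [← hj, hgv, hkc]; push_cast; rw [div_neg]; ring

theorem ratio_small {E : Set ℂ} (hE : NullMeasurableSet E) {a b : ℝ} (ha : 0 < a) (hab : a < b)
    (hb2 : b < 2 * a)
    (H : ∀ p w : ℂ, (‖w‖ = a ∨ ‖w‖ = b) → NM E p (p + w) (p + om * w)) : False := by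
  have hb : 0 < b := ha.trans hab
  obtain ⟨E', hE', hEE⟩ : ∃ E', MeasurableSet E' ∧ E =ᵐ[volume] E' := by
    obtain ⟨E', h1, h2⟩ := hE.exists_measurable_superset_ae_eq
    exact ⟨E', h2.1, h2.2.symm⟩
  have hden : ∀ S S' : Set ℂ, S =ᵐ[volume] S' → ∀ n x, den S n x = den S' n x := by
    intro S S' h n x
    unfold den Measure.real
    have h1 : volume (S ∩ Metric.closedBall x (rd n)) = volume (S' ∩ Metric.closedBall x (rd n)) :=
      measure_congr (h.inter (ae_eq_refl _))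
    rw [h1]
  have hEc : (Eᶜ : Set ℂ) =ᵐ[volume] (E'ᶜ : Set ℂ) := hEE.compl
  have hD : D1 E = D1 E' := by
    unfold D1
    ext x
    simp only [mem_ofPred]
    simp only [hden Eᶜ E'ᶜ hEc]
  have hD' : D1 Eᶜ = D1 E'ᶜ := by
    unfold D1
    ext x
    simp only [mem_ofPred, compl_compl]
    simp only [hden E E' hEE]
  -- neither null nor co-null
  have tr : ∀ {P : ℂ → Prop} (c : ℂ), (∀ᵐ z : ℂ, P z) → ∀ᵐ z : ℂ, P (z + c) := fun c h =>
    (measurePreserving_add_right volume c).quasiMeasurePreserving.ae h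
  have hna : ‖(a : ℂ)‖ = a := by rw [Complex.norm_real, Real.norm_eq_abs, abs_of_pos ha]
  have v1 : volume E' ≠ 0 := by
    intro h0
    rw [← measure_congr hEE, measure_eq_zero_iff_ae_notMem] at h0
    obtain ⟨p, q1, q2, q3⟩ := (h0.and ((tr (a : ℂ) h0).and (tr (om * a) h0))).exists
    exact (H p a (Or.inl hna)).2 ⟨q1, q2, q3⟩
  have v2 : volume E'ᶜ ≠ 0 := by
    intro h0
    rw [← measure_congr hEc, measure_eq_zero_iff_ae_notMem] at h0
    obtain ⟨p, q1, q2, q3⟩ := (h0.and ((tr (a : ℂ) h0).and (tr (om * a) h0))).exists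
    exact (H p a (Or.inl hna)).1 ⟨not_not.1 q1, not_not.1 q2, not_not.1 q3⟩
  obtain ⟨x₀, hx1, hx2, hr, hs⟩ := good_point hE' v1 v2 ha hb
  -- triangles
  have tri : ∀ φ : ℝ, Real.cos φ = b / (2 * a) ∨ Real.cos φ = a / (2 * b) →
      ∀ᵐ θ : ℝ, (x₀ + a * ex θ ∈ D1 E' ↔ x₀ + b * ex (θ + φ) ∉ D1 E') := by
    intro φ hφ
    refine flip hD hD' hx1 hx2 hr hs ?_
    intro p t
    apply eg_one
    intro q w hw
    rw [norm_real_ex ha, norm_real_ex hb] at hw
    apply H q w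
    rcases hw with hw | hw | hw
    · exact Or.inl hw
    · exact Or.inr hw
    · have h3 := norm_third a b t φ
      have h4 : 0 ≤ ‖(a : ℂ) * ex t - b * ex (t + φ)‖ := norm_nonneg _
      rcases hφ with hφ | hφ
      · left
        rw [hw]
        have h5 : ‖(a : ℂ) * ex t - b * ex (t + φ)‖ ^ 2 = a ^ 2 := by
          rw [h3, hφ]
          field_simp
          ring
        exact (sq_eq_sq₀ h4 ha.le).1 h5
      · right
        rw [hw]
        have h5 : ‖(a : ℂ) * ex t - b * ex (t + φ)‖ ^ 2 = b ^ 2 := by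
          rw [h3, hφ]
          field_simp
          ring
        exact (sq_eq_sq₀ h4 hb.le).1 h5
  have eqf : ∀ᵐ θ : ℝ, (x₀ + b * ex θ ∈ D1 E' ↔ x₀ + b * ex (θ + Real.pi / 3) ∉ D1 E') := by
    refine flip hD hD' hx1 hx2 hs hs ?_
    intro p t
    have := H p (b * ex t) (Or.inr (norm_real_ex hb t))
    rw [om_eq, show ex (Real.pi / 3) * (b * ex t) = b * ex (t + Real.pi / 3) by
      rw [ex_add]; ring] at this
    exact this
  obtain ⟨S, hS⟩ : ∃ S : Set ℝ, S = {θ | x₀ + b * ex θ ∈ D1 E'} := ⟨_, rfl⟩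
  have hmS : ∀ θ, θ ∈ S ↔ x₀ + b * ex θ ∈ D1 E' := by
    intro θ
    rw [hS, mem_ofPred]
  obtain ⟨γ, hγ⟩ : ∃ γ, γ = Real.arccos (b / (2 * a)) := ⟨_, rfl⟩
  obtain ⟨γ', hγ'⟩ : ∃ γ', γ' = Real.arccos (a / (2 * b)) := ⟨_, rfl⟩
  have b1 : b / (2 * a) < 1 := by rw [div_lt_one (by positivity)]; exact hb2
  have b2 : a / (2 * b) < b / (2 * a) := by
    rw [div_lt_div_iff₀ (by positivity) (by positivity)]
    nlinarith
  have b3 : 0 < a / (2 * b) := by positivity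
  have cγ : Real.cos γ = b / (2 * a) := by
    rw [hγ, Real.cos_arccos (by linarith) b1.le]
  have cγ' : Real.cos γ' = a / (2 * b) := by
    rw [hγ', Real.cos_arccos (by linarith) (by linarith)]
  have g0 : 0 < γ := by rw [hγ]; exact Real.arccos_pos.2 b1
  have g1 : γ < γ' := by
    rw [hγ, hγ']
    exact Real.arccos_lt_arccos (by linarith) b2 b1.le
  have g2 : γ' < Real.pi / 2 := by
    rw [hγ']; exact Real.arccos_lt_pi_div_two.2 b3
  have t1 := tri γ (Or.inl cγ)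
  have t2 := tri γ' (Or.inr cγ')
  have t3 := tri (-γ') (Or.inr (by rw [Real.cos_neg, cγ']))
  have hA : γ - γ' ∈ inv S := by
    rw [mem_inv]
    filter_upwards [ae_add t1 (-γ'), ae_add t2 (-γ')] with θ p q
    rw [hmS, hmS]
    rw [show θ + -γ' + γ = θ + (γ - γ') by ring] at p
    rw [show θ + -γ' + γ' = θ by ring] at q
    tauto
  have hB : γ + γ' ∈ inv S := by
    rw [mem_inv]
    filter_upwards [ae_add t1 γ', ae_add t3 γ'] with θ p q
    rw [hmS, hmS]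
    rw [show θ + γ' + γ = θ + (γ + γ') by ring] at p
    rw [show θ + γ' + -γ' = θ by ring] at q
    tauto
  have hAB : Real.cos (γ - γ') + Real.cos (γ + γ') = 1 / 2 := by
    rw [Real.cos_sub, Real.cos_add, cγ, cγ']
    field_simp
    ring
  have hper : ∀ θ, θ + 2 * Real.pi ∈ S ↔ θ ∈ S := by
    intro θ
    rw [hmS, hmS, ex_periodic]
  have hfl : ∀ᵐ θ : ℝ, (θ ∈ S ↔ θ + Real.pi / 3 ∉ S) := by
    filter_upwards [eqf] with θ h
    rw [hmS, hmS]
    exact h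
  have hnd : ¬ Dense (inv S : Set ℝ) := by
    intro hd
    have hc := dense_const (measurable_D1 hE') x₀ b hd (by
      intro g hg
      have := mem_inv.1 hg
      filter_upwards [this] with θ h
      rw [hmS, hmS] at h
      exact h)
    have e : ∀ᵐ _ : ℝ, False := by
      rcases hc with h | h
      · filter_upwards [h, ae_add h (Real.pi / 3), eqf] with θ p q r
        tauto
      · filter_upwards [h, ae_add h (Real.pi / 3), eqf] with θ p q r
        tauto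
    rw [eventually_false_iff_eq_bot, ae_eq_bot] at e
    exact (NeZero.ne (volume : Measure ℝ)) e
  have hcl : 0 < Real.cos (γ - γ') := Real.cos_pos_of_mem_Ioo ⟨by linarith, by linarith⟩
  have hcl2 : Real.cos (γ - γ') < 1 := by
    rw [← Real.cos_neg, show -(γ - γ') = γ' - γ by ring]
    have := Real.cos_lt_cos_of_nonneg_of_le_pi (x := 0) (y := γ' - γ) le_rfl (by linarith)
      (by linarith)
    rwa [Real.cos_zero] at this
  rcases no_group hper hfl hnd hA hB hAB with h | h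
  · linarith
  · linarith

end Pool.Agent.N862.MC
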