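import Mathlib

/-!
Falconer's observation: for a null set `N` of the plane and a point `x`, almost every point of a
circle around `x` has the property that almost all of the circle of given radius around it misses
`N`. (helper862)
-/

set_option autoImplicit false

open MeasureTheory Set

namespace Pool.Agent.N862.MC

/-- points of the unit circle -/
noncomputable def ex (θ : ℝ) : ℂ := Complex.exp (θ * Complex.I)

theorem ex_add (a b : ℝ) : ex (a + b) = ex a * ex b := by
  unfold ex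
  rw [← Complex.exp_add]
  congr 1
  push_cast
  ring

theorem norm_ex (a : ℝ) : ‖ex a‖ = 1 := Complex.norm_exp_ofReal_mul_I a

theorem continuous_ex : Continuous ex := by
  unfold ex
  fun_prop

theorem ex_periodic (a : ℝ) : ex (a + 2 * Real.pi) = ex a := by
  rw [ex_add]
  unfold ex
  push_cast
  rw [Complex.exp_two_pi_mul_I, mul_one]

theorem ex_periodic_int (a : ℝ) (k : ℤ) : ex (a + k * (2 * Real.pi)) = ex a := by
  rw [ex_add]
  have : ex (k * (2 * Real.pi)) = 1 := by
    unfold ex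
    push_cast
    rw [show ((k : ℂ) * (2 * Real.pi) * Complex.I) = k * (2 * Real.pi * Complex.I) by ring]
    exact Complex.exp_int_mul_two_pi_mul_I k
  rw [this, mul_one]

theorem ae_add {P : ℝ → Prop} (h : ∀ᵐ θ : ℝ, P θ) (c : ℝ) : ∀ᵐ θ : ℝ, P (θ + c) :=
  (measurePreserving_add_right volume c).quasiMeasurePreserving.ae h

theorem ae_neg {P : ℝ → Prop} (h : ∀ᵐ θ : ℝ, P θ) : ∀ᵐ θ : ℝ, P (-θ) :=
  (Measure.measurePreserving_neg (volume : Measure ℝ)).quasiMeasurePreserving.ae h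

/-- a periodic property that holds almost everywhere on one period holds almost everywhere -/
theorem ae_of_period {P : ℝ → Prop} (hper : ∀ θ, ∀ k : ℤ, P (θ + k * (2 * Real.pi)) → P θ)
    (h : ∀ᵐ θ : ℝ, θ ∈ Ioo (-Real.pi) Real.pi → P θ) : ∀ᵐ θ : ℝ, P θ := by
  have h1 : ∀ᵐ θ : ℝ, θ ∈ Ioc (-Real.pi) Real.pi → P θ := by
    have h3 : ∀ᵐ θ : ℝ, θ ≠ Real.pi := by
      rw [ae_iff]
      simp
    filter_upwards [h, h3] with θ a b c
    exact a ⟨c.1, lt_of_le_of_ne c.2 b⟩
  have h2 : ∀ k : ℤ, ∀ᵐ θ : ℝ, θ + k * (2 * Real.pi) ∈ Ioc (-Real.pi) Real.pi →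
      P (θ + k * (2 * Real.pi)) := fun k => ae_add h1 _
  filter_upwards [ae_all_iff.2 h2] with θ hθ
  obtain ⟨k, hk, -⟩ := existsUnique_add_zsmul_mem_Ioc (show (0 : ℝ) < 2 * Real.pi by positivity) θ
    (-Real.pi)
  rw [zsmul_eq_mul, show -Real.pi + 2 * Real.pi = Real.pi by ring] at hk
  exact hper θ k (hθ k hk)

/-- null sets in polar coordinates -/
theorem ae_polar {N : Set ℂ} (hN : MeasurableSet N) (h0 : volume N = 0) :
    ∀ᵐ ρ : ℝ, 0 < ρ → ∀ᵐ θ : ℝ, (ρ : ℂ) * ex θ ∉ N := by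
  have h1 := Complex.lintegral_comp_polarCoord_symm (N.indicator (fun _ => (1 : ENNReal)))
  rw [lintegral_indicator_const hN, h0, mul_zero] at h1
  have hmeas : Measurable fun p : ℝ × ℝ => ENNReal.ofReal p.1 •
      N.indicator (fun _ => (1 : ENNReal)) (Complex.polarCoord.symm p) := by
    have hc : Measurable fun p : ℝ × ℝ => Complex.polarCoord.symm p := by
      have : (fun p : ℝ × ℝ => Complex.polarCoord.symm p) =
          fun p => (p.1 : ℂ) * (Real.cos p.2 + Real.sin p.2 * Complex.I) := by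
        funext p
        rw [Complex.polarCoord_symm_apply]
      rw [this]
      fun_prop
    exact (by fun_prop : Measurable fun p : ℝ × ℝ => ENNReal.ofReal p.1).smul
      ((measurable_const.indicator hN).comp hc)
  rw [lintegral_eq_zero_iff hmeas, polarCoord_target, Measure.volume_eq_prod,
    ← Measure.prod_restrict] at h1
  have h2 := Measure.ae_ae_of_ae_prod h1
  rw [ae_restrict_iff' measurableSet_Ioi] at h2
  filter_upwards [h2] with ρ hρ h
  have h3 := hρ h
  rw [ae_restrict_iff' measurableSet_Ioo] at h3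
  apply ae_of_period
  · intro θ k hk
    rwa [ex_periodic_int] at hk
  · filter_upwards [h3] with θ hθ hm
    have h4 := hθ hm
    intro hmem
    have h5 : Complex.polarCoord.symm (ρ, θ) = (ρ : ℂ) * ex θ := by
      rw [Complex.polarCoord_symm_apply]
      unfold ex
      rw [Complex.exp_mul_I]
      push_cast
      ring
    simp only [Pi.zero_apply] at h4
    rw [h5, indicator_of_mem hmem] at h4
    simp only [smul_eq_mul, mul_one, ENNReal.ofReal_eq_zero] at h4
    exact absurd h4 (not_le.2 h)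

/-- the radius map pulls null sets back to null sets -/
theorem ae_radius {r s : ℝ} (hr : 0 < r) (hs : 0 < s) {Q : ℝ → Prop} (h : ∀ᵐ ρ : ℝ, Q ρ) :
    ∀ᵐ δ : ℝ, 0 < ‖(r : ℂ) + s * ex δ‖ ∧ Q ‖(r : ℂ) + s * ex δ‖ := by
  have hn : ∀ δ : ℝ, ‖(r : ℂ) + s * ex δ‖ = √(r ^ 2 + s ^ 2 + 2 * r * s * Real.cos δ) := by
    intro δ
    rw [Complex.norm_def, Complex.normSq_apply]
    congr 1
    unfold ex
    rw [Complex.exp_mul_I, ← Complex.ofReal_cos, ← Complex.ofReal_sin]
    simp only [Complex.add_re, Complex.add_im, Complex.mul_re, Complex.mul_im, Complex.ofReal_re,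
      Complex.ofReal_im, Complex.I_re, Complex.I_im]
    have := Real.sin_sq_add_cos_sq δ
    nlinarith [this]
  have hpos : ∀ δ ∈ Ioo 0 Real.pi, 0 < r ^ 2 + s ^ 2 + 2 * r * s * Real.cos δ := by
    intro δ hδ
    have h1 : -1 < Real.cos δ := by
      have := Real.cos_lt_cos_of_nonneg_of_le_pi hδ.1.le le_rfl hδ.2
      rwa [Real.cos_pi] at this
    nlinarith [sq_nonneg (r - s), mul_pos hr hs]
  have hinj : InjOn (fun δ => √(r ^ 2 + s ^ 2 + 2 * r * s * Real.cos δ)) (Ioo 0 Real.pi) := by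
    intro a ha b hb hab
    have h1 := (Real.sqrt_inj (hpos a ha).le (hpos b hb).le).1 hab
    have h2 : Real.cos a = Real.cos b := by
      have : 2 * r * s * (Real.cos a - Real.cos b) = 0 := by linarith
      have h3 : 2 * r * s ≠ 0 := by positivity
      rcases mul_eq_zero.1 this with h4 | h4
      · exact absurd h4 h3
      · linarith
    exact Real.injOn_cos ⟨ha.1.le, ha.2.le⟩ ⟨hb.1.le, hb.2.le⟩ h2
  have hder : ∀ δ ∈ Ioo 0 Real.pi, HasDerivWithinAt
      (fun δ => √(r ^ 2 + s ^ 2 + 2 * r * s * Real.cos δ))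
      ((2 * r * s * (-Real.sin δ)) / (2 * √(r ^ 2 + s ^ 2 + 2 * r * s * Real.cos δ)))
      (Ioo 0 Real.pi) δ := by
    intro δ hδ
    have h1 : HasDerivAt (fun δ => r ^ 2 + s ^ 2 + 2 * r * s * Real.cos δ)
        (2 * r * s * (-Real.sin δ)) δ :=
      ((Real.hasDerivAt_cos δ).const_mul (2 * r * s)).const_add (r ^ 2 + s ^ 2)
    exact (h1.sqrt (hpos δ hδ).ne').hasDerivWithinAt
  obtain ⟨N, hNs, hNm, hN0⟩ : ∃ N : Set ℝ, {ρ | ¬ Q ρ} ⊆ N ∧ MeasurableSet N ∧ volume N = 0 := by
    refine ⟨toMeasurable volume {ρ | ¬ Q ρ}, subset_toMeasurable _ _, measurableSet_toMeasurable _ _,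
      ?_⟩
    rw [measure_toMeasurable]
    exact h
  have hl := lintegral_image_eq_lintegral_abs_deriv_mul measurableSet_Ioo hder hinj
    (N.indicator (fun _ => (1 : ENNReal)))
  have hl0 : ∫⁻ x in (fun δ => √(r ^ 2 + s ^ 2 + 2 * r * s * Real.cos δ)) '' Ioo 0 Real.pi,
      N.indicator (fun _ => (1 : ENNReal)) x = 0 := by
    rw [← nonpos_iff_eq_zero]
    calc _ ≤ ∫⁻ x, N.indicator (fun _ => (1 : ENNReal)) x := setLIntegral_le_lintegral _ _
      _ = 0 := by rw [lintegral_indicator_const hNm, hN0, mul_zero]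
  rw [hl0] at hl
  have hmeas : Measurable fun x => ENNReal.ofReal |(2 * r * s * (-Real.sin x)) /
      (2 * √(r ^ 2 + s ^ 2 + 2 * r * s * Real.cos x))| *
      N.indicator (fun _ => (1 : ENNReal)) (√(r ^ 2 + s ^ 2 + 2 * r * s * Real.cos x)) := by
    refine Measurable.mul (by fun_prop) ?_
    exact (measurable_const.indicator hNm).comp (by fun_prop)
  rw [eq_comm, lintegral_eq_zero_iff hmeas] at hl
  have h2 : ∀ᵐ δ : ℝ, δ ∈ Ioo 0 Real.pi → 0 < ‖(r : ℂ) + s * ex δ‖ ∧ Q ‖(r : ℂ) + s * ex δ‖ := by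
    rw [Filter.EventuallyEq, ae_restrict_iff' measurableSet_Ioo] at hl
    filter_upwards [hl] with δ hδ hm
    rw [hn]
    refine ⟨Real.sqrt_pos.2 (hpos δ hm), ?_⟩
    by_contra hq
    have h3 := hδ hm
    rw [indicator_of_mem (hNs hq)] at h3
    simp only [Pi.zero_apply, mul_one, ENNReal.ofReal_eq_zero] at h3
    have h4 : 0 < |(2 * r * s * (-Real.sin δ)) /
      (2 * √(r ^ 2 + s ^ 2 + 2 * r * s * Real.cos δ))| := by
      have a1 := Real.sqrt_pos.2 (hpos δ hm)
      have a2 := Real.sin_pos_of_pos_of_lt_pi hm.1 hm.2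
      rw [abs_pos]
      apply div_ne_zero
      · apply mul_ne_zero (by positivity)
        exact neg_ne_zero.2 a2.ne'
      · positivity
    linarith
  have h3 : ∀ᵐ δ : ℝ, -δ ∈ Ioo 0 Real.pi → 0 < ‖(r : ℂ) + s * ex (-δ)‖ ∧
      Q ‖(r : ℂ) + s * ex (-δ)‖ := ae_neg h2
  apply ae_of_period
  · intro θ k hk
    rwa [ex_periodic_int] at hk
  · have h4 : ∀ᵐ θ : ℝ, θ ≠ 0 := by
      rw [ae_iff]
      simp
    filter_upwards [h2, h3, h4] with θ a b c hm
    rcases lt_or_gt_of_ne c with hc | hc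
    · have := b ⟨by linarith, by linarith [hm.1]⟩
      rw [hn, Real.cos_neg, ← hn] at this
      exact this
    · exact a ⟨hc, hm.2⟩

theorem falconer {N : Set ℂ} (h0 : volume N = 0) (x : ℂ) {r s : ℝ} (hr : 0 < r) (hs : 0 < s) :
    ∀ᵐ θ : ℝ, ∀ᵐ φ : ℝ, x + r * ex θ + s * ex φ ∉ N := by
  obtain ⟨N', hN', hNm, hN0⟩ : ∃ N' : Set ℂ, N ⊆ N' ∧ MeasurableSet N' ∧ volume N' = 0 :=
    ⟨toMeasurable volume N, subset_toMeasurable _ _, measurableSet_toMeasurable _ _, by
      rw [measure_toMeasurable, h0]⟩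
  have hm2 : MeasurableSet ((fun z => x + z) ⁻¹' N') := hNm.preimage (by fun_prop)
  have h02 : volume ((fun z => x + z) ⁻¹' N') = 0 := by
    rw [measure_preimage_add, hN0]
  have h1 := ae_radius hr hs (ae_polar hm2 h02)
  have h2 : ∀ᵐ δ : ℝ, ∀ᵐ θ : ℝ, x + ex θ * (r + s * ex δ) ∉ N' := by
    filter_upwards [h1] with δ hδ
    have h3 := hδ.2 hδ.1
    obtain ⟨w, hw⟩ : ∃ w : ℂ, w = r + s * ex δ := ⟨_, rfl⟩
    rw [← hw] at h3 ⊢
    have h4 := ae_add h3 (Complex.arg w)
    filter_upwards [h4] with θ hθ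
    intro hmem
    apply hθ
    have : x + (‖w‖ : ℂ) * ex (θ + Complex.arg w) = x + ex θ * w := by
      rw [ex_add]
      have h5 : (‖w‖ : ℂ) * ex (Complex.arg w) = w := Complex.norm_mul_exp_arg_mul_I w
      rw [show x + (‖w‖ : ℂ) * (ex θ * ex (Complex.arg w)) =
        x + ex θ * ((‖w‖ : ℂ) * ex (Complex.arg w)) by ring, h5]
    rw [mem_preimage, this]
    exact hmem
  have hms : MeasurableSet {p : ℝ × ℝ | x + ex p.2 * (r + s * ex p.1) ∉ N'} := by
    have : Measurable fun p : ℝ × ℝ => x + ex p.2 * (r + s * ex p.1) := by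
      apply Continuous.measurable
      have := continuous_ex
      fun_prop
    exact (hNm.preimage this).compl
  have h3 := (Measure.ae_ae_comm (p := fun δ θ => x + ex θ * (r + s * ex δ) ∉ N') hms).1 h2
  filter_upwards [h3] with θ hθ
  have h4 := ae_add hθ (-θ)
  filter_upwards [h4] with φ hφ hmem
  apply hφ
  apply hN'
  have : x + ex θ * (r + s * ex (φ + -θ)) = x + r * ex θ + s * ex φ := by
    have : ex θ * ex (φ + -θ) = ex φ := by
      rw [← ex_add]; congr 1; ring
    rw [← this]; ring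
  rw [this]
  exact hmem

end Pool.Agent.N862.MC
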